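import Pool.Agent.W201.NT.StmG

/-!
Project NT (helper201), part IS: isometries of compact spaces are surjective.
-/

set_option autoImplicit false

namespace Pool.Agent.W977.NT.IS

open Filter Topology

theorem surj {M : Type} [MetricSpace M] [CompactSpace M] (f : M → M) (hf : Isometry f) :
    Function.Surjective f := by
  intro y
  by_contra hcon
  have hy : y ∉ Set.range f := fun ⟨x, hx⟩ => hcon ⟨x, hx⟩
  have hcl : IsClosed (Set.range f) := (isCompact_range hf.continuous).isClosed
  obtain ⟨d, hd0, hd⟩ : ∃ d > 0, ∀ z ∈ Set.range f, d ≤ dist y z := by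
    obtain ⟨d, hd0, hd⟩ := Metric.mem_nhds_iff.mp (hcl.isOpen_compl.mem_nhds hy)
    refine ⟨d, hd0, fun z hz => ?_⟩
    by_contra hlt
    rw [not_le, dist_comm] at hlt
    exact hd (Metric.mem_ball.mpr hlt) hz
  -- the orbit is separated
  have hsep : ∀ n k : ℕ, d ≤ dist (f^[n] y) (f^[n + (k + 1)] y) := by
    intro n k
    induction n with
    | zero =>
      rw [Nat.zero_add, Function.iterate_succ_apply']
      exact hd _ ⟨_, rfl⟩
    | succ n ih =>
      have h1 : f^[n + 1 + (k + 1)] y = f (f^[n + (k + 1)] y) := by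
        have h0 : n + 1 + (k + 1) = (n + (k + 1)) + 1 := by omega
        rw [h0, Function.iterate_succ_apply']
      rw [h1, Function.iterate_succ_apply', hf.dist_eq]
      exact ih
  obtain ⟨a, -, φ, hφ, hlim⟩ := (isCompact_univ : IsCompact (Set.univ : Set M)).tendsto_subseq
    (x := fun n => f^[n] y) (fun _ => trivial)
  have hc := hlim.cauchySeq
  obtain ⟨N, hN⟩ := Metric.cauchySeq_iff.mp hc d hd0
  have h1 := hN N le_rfl (N + 1) (Nat.le_succ N)
  have h2 : φ N < φ (N + 1) := hφ (Nat.lt_succ_self N)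
  have h3 := hsep (φ N) (φ (N + 1) - φ N - 1)
  have h4 : φ N + (φ (N + 1) - φ N - 1 + 1) = φ (N + 1) := by omega
  rw [h4] at h3
  simp only [Function.comp] at h1
  linarith

theorem main : Pool.Agent.W201.NT.S_IS := by
  intro M _ _ f hf
  exact surj f hf

end Pool.Agent.W977.NT.IS
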